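import Pool.Agent.Helper65.OH.Goals

/-! # CROSS: shift of a grid -/

namespace Pool.Agent.Helper40.OH

open Pool.Agent.Helper65.OH Finset

theorem dvd_of_div_ne {d u o : ℕ} (h : (u + o) / d ≠ (u + 1 + o) / d) : d ∣ u + o + 1 := by
  by_contra hd
  apply h
  have h1 : u + 1 + o = (u + o) + 1 := by omega
  rw [h1, Nat.succ_div, if_neg hd, add_zero]

theorem eq_of_dvd {d u o₁ o₂ : ℕ} (h₁ : o₁ < d) (h₂ : o₂ < d) (a : d ∣ u + o₁ + 1)
    (b : d ∣ u + o₂ + 1) : o₁ = o₂ := by
  obtain ⟨x, hx⟩ := a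
  obtain ⟨y, hy⟩ := b
  rcases lt_trichotomy x y with h | h | h
  · have : d * (x + 1) ≤ d * y := Nat.mul_le_mul_left d h
    rw [Nat.mul_succ] at this
    omega
  · subst h
    omega
  · have : d * (y + 1) ≤ d * x := Nat.mul_le_mul_left d h
    rw [Nat.mul_succ] at this
    omega

theorem card_le_one' {d u v : ℕ} (h1 : v ≤ u + 1) (h2 : u ≤ v + 1) :
    ((range d).filter fun o => (u + o) / d ≠ (v + o) / d).card ≤ 1 := by
  rw [card_le_one]
  intro a ha b hb
  rw [mem_filter, mem_range] at ha hb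
  obtain ⟨ha1, ha2⟩ := ha
  obtain ⟨hb1, hb2⟩ := hb
  rcases (by omega : v = u ∨ v = u + 1 ∨ u = v + 1) with h | h | h
  · subst h; exact absurd rfl ha2
  · subst h
    exact eq_of_dvd ha1 hb1 (dvd_of_div_ne ha2) (dvd_of_div_ne hb2)
  · subst h
    exact eq_of_dvd ha1 hb1 (dvd_of_div_ne (Ne.symm ha2)) (dvd_of_div_ne (Ne.symm hb2))

theorem CROSS : CROSS_stmt := by
  intro D r d p hd hp
  have h1 : ∀ o ∈ range d, ((range r).filter fun t =>
      ∃ k < D, (p t k + o) / d ≠ (p (t + 1) k + o) / d).card ≤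
      ∑ t ∈ range r, ∑ k ∈ range D,
        if (p t k + o) / d ≠ (p (t + 1) k + o) / d then 1 else 0 := by
    intro o _
    rw [card_filter]
    refine sum_le_sum fun t _ => ?_
    split_ifs with h
    · obtain ⟨k, hk, hne⟩ := h
      have := single_le_sum (f := fun k => if (p t k + o) / d ≠ (p (t + 1) k + o) / d
        then 1 else 0) (fun _ _ => Nat.zero_le _) (mem_range.2 hk)
      simpa [hne] using this
    · exact Nat.zero_le _
  have h2 : ∑ o ∈ range d, ((range r).filter fun t =>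
      ∃ k < D, (p t k + o) / d ≠ (p (t + 1) k + o) / d).card ≤ D * r := by
    refine (sum_le_sum h1).trans ?_
    rw [sum_comm]
    have h3 : ∀ t ∈ range r, ∑ o ∈ range d, ∑ k ∈ range D,
        (if (p t k + o) / d ≠ (p (t + 1) k + o) / d then 1 else 0) ≤ D := by
      intro t ht
      rw [sum_comm]
      have h4 : ∀ k ∈ range D, ∑ o ∈ range d,
          (if (p t k + o) / d ≠ (p (t + 1) k + o) / d then 1 else 0) ≤ 1 := by
        intro k hk
        obtain ⟨a, b⟩ := hp t (mem_range.1 ht) k (mem_range.1 hk)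
        have := card_le_one' (d := d) a b
        rwa [card_filter] at this
      refine (sum_le_sum h4).trans ?_
      simp
    refine (sum_le_sum h3).trans ?_
    simp [mul_comm]
  by_contra hcon
  push Not at hcon
  have h5 : ∑ o ∈ range d, D * r < ∑ o ∈ range d, d * ((range r).filter fun t =>
      ∃ k < D, (p t k + o) / d ≠ (p (t + 1) k + o) / d).card :=
    sum_lt_sum_of_nonempty ⟨0, mem_range.2 hd⟩ fun o ho => hcon o (mem_range.1 ho)
  rw [sum_const, card_range, smul_eq_mul, ← mul_sum] at h5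
  exact absurd (Nat.mul_le_mul_left d h2) (not_le.2 h5)

end Pool.Agent.Helper40.OH
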